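import Mathlib

/-! Exponential moments of sums of independent uniform choices (helper329). -/

set_option autoImplicit false
set_option linter.unusedSectionVars false
set_option linter.unusedVariables false

open Finset

namespace Pool.Agent.Q329.LT

lemma exp_le_quad {x : ℝ} (hx : |x| ≤ 1) : Real.exp x ≤ 1 + x + x ^ 2 := by
  have h := Real.abs_exp_sub_one_sub_id_le hx
  have h2 := (abs_le.mp h).2
  linarith

lemma one_factor {κ : Type} [Fintype κ] [Nonempty κ] (Y : κ → ℝ) (h lam : ℝ)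
    (hY0 : ∀ c, 0 ≤ Y c) (hYh : ∀ c, Y c ≤ h) (hlam : 0 ≤ lam) (hlh : lam * h ≤ 1) :
    ∑ k, Real.exp (lam * (Y k - (∑ k, Y k) / Fintype.card κ)) ≤
      Fintype.card κ * Real.exp (lam ^ 2 * h * ((∑ k, Y k) / Fintype.card κ)) := by
  have hκ : (0 : ℝ) < Fintype.card κ := by exact_mod_cast Fintype.card_pos
  obtain ⟨m, hm⟩ : ∃ m, m = (∑ k, Y k) / (Fintype.card κ : ℝ) := ⟨_, rfl⟩
  have hs : ∑ k, Y k = m * Fintype.card κ := by rw [hm]; field_simp
  rw [← hm]
  have hm0 : 0 ≤ m := by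
    rw [hm]
    exact div_nonneg (sum_nonneg fun k _ => hY0 k) hκ.le
  have hmh : m ≤ h := by
    rw [hm, div_le_iff₀ hκ]
    calc ∑ k, Y k ≤ ∑ _k : κ, h := sum_le_sum fun k _ => hYh k
      _ = h * Fintype.card κ := by rw [sum_const, card_univ, nsmul_eq_mul, mul_comm]
  have h1 : ∀ k, Real.exp (lam * (Y k - m)) ≤ 1 + lam * (Y k - m) + (lam * (Y k - m)) ^ 2 := by
    intro k
    apply exp_le_quad
    rw [abs_mul, abs_of_nonneg hlam]
    refine le_trans ?_ hlh
    refine mul_le_mul_of_nonneg_left ?_ hlam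
    rw [abs_le]
    have := hY0 k
    have := hYh k
    constructor <;> linarith
  have h2 : ∑ k, (1 + lam * (Y k - m) + (lam * (Y k - m)) ^ 2) =
      Fintype.card κ + lam ^ 2 * (∑ k, Y k ^ 2 - Fintype.card κ * m ^ 2) := by
    have e1 : ∀ k, (1 + lam * (Y k - m) + (lam * (Y k - m)) ^ 2) =
        (1 - lam * m + lam ^ 2 * m ^ 2) + (lam - 2 * lam ^ 2 * m) * Y k + lam ^ 2 * Y k ^ 2 := by
      intro k; ring
    rw [sum_congr rfl fun k _ => e1 k, sum_add_distrib, sum_add_distrib, ← mul_sum, ← mul_sum,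
      sum_const, card_univ, nsmul_eq_mul, hs]
    ring
  have h3 : ∑ k, Y k ^ 2 ≤ h * (m * Fintype.card κ) := by
    rw [← hs, mul_sum]
    refine sum_le_sum fun k _ => ?_
    rw [sq]
    exact mul_le_mul_of_nonneg_right (hYh k) (hY0 k)
  calc ∑ k, Real.exp (lam * (Y k - m)) ≤ ∑ k, (1 + lam * (Y k - m) + (lam * (Y k - m)) ^ 2) :=
        sum_le_sum fun k _ => h1 k
    _ = Fintype.card κ + lam ^ 2 * (∑ k, Y k ^ 2 - Fintype.card κ * m ^ 2) := h2
    _ ≤ Fintype.card κ + lam ^ 2 * (h * (m * Fintype.card κ)) := by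
        have : 0 ≤ Fintype.card κ * m ^ 2 := by positivity
        have e : ∑ k, Y k ^ 2 - Fintype.card κ * m ^ 2 ≤ h * (m * Fintype.card κ) := by linarith
        have := mul_le_mul_of_nonneg_left e (sq_nonneg lam)
        linarith
    _ = Fintype.card κ * (lam ^ 2 * h * m + 1) := by ring
    _ ≤ _ := mul_le_mul_of_nonneg_left (Real.add_one_le_exp _) hκ.le

/-- the number of choices with a large sum -/
lemma mgf {ι κ : Type} [Fintype ι] [DecidableEq ι] [Fintype κ] [Nonempty κ]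
    (Y : ι → κ → ℝ) (h lam τ : ℝ) (hY0 : ∀ i c, 0 ≤ Y i c) (hYh : ∀ i c, Y i c ≤ h)
    (hlam : 0 ≤ lam) (hlh : lam * h ≤ 1) (B : Finset (ι → κ))
    (hB : ∀ c ∈ B, (∑ i, ∑ k, Y i k) / Fintype.card κ + τ ≤ ∑ i, Y i (c i)) :
    (B.card : ℝ) *
      Real.exp (lam * τ - lam ^ 2 * h * ((∑ i, ∑ k, Y i k) / Fintype.card κ)) ≤
      (Fintype.card κ : ℝ) ^ Fintype.card ι := by
  classical
  obtain ⟨m, hm⟩ : ∃ m : ι → ℝ, m = fun i => (∑ k, Y i k) / (Fintype.card κ : ℝ) := ⟨_, rfl⟩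
  have hms : (∑ i, ∑ k, Y i k) / (Fintype.card κ : ℝ) = ∑ i, m i := by
    rw [hm, sum_div]
  rw [hms] at hB ⊢
  have h1 : ∑ c : ι → κ, ∏ i, Real.exp (lam * (Y i (c i) - m i)) =
      ∏ i, ∑ k, Real.exp (lam * (Y i k - m i)) := by
    rw [Finset.prod_univ_sum, Fintype.piFinset_univ]
  have h2 : ∏ i, ∑ k, Real.exp (lam * (Y i k - m i)) ≤
      ∏ i, ((Fintype.card κ : ℝ) * Real.exp (lam ^ 2 * h * m i)) := by
    refine prod_le_prod (fun i _ => sum_nonneg fun k _ => (Real.exp_pos _).le) fun i _ => ?_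
    rw [hm]
    exact one_factor (Y i) h lam (hY0 i) (hYh i) hlam hlh
  have h3 : ∏ i, ((Fintype.card κ : ℝ) * Real.exp (lam ^ 2 * h * m i)) =
      (Fintype.card κ : ℝ) ^ Fintype.card ι * Real.exp (lam ^ 2 * h * ∑ i, m i) := by
    rw [prod_mul_distrib, prod_const, card_univ, ← Real.exp_sum, ← mul_sum]
  have h4 : (B.card : ℝ) * Real.exp (lam * τ) ≤
      ∑ c : ι → κ, ∏ i, Real.exp (lam * (Y i (c i) - m i)) := by
    calc (B.card : ℝ) * Real.exp (lam * τ) = ∑ _c ∈ B, Real.exp (lam * τ) := by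
          rw [sum_const, nsmul_eq_mul]
      _ ≤ ∑ c ∈ B, ∏ i, Real.exp (lam * (Y i (c i) - m i)) := by
          refine sum_le_sum fun c hc => ?_
          rw [← Real.exp_sum, ← mul_sum, sum_sub_distrib]
          apply Real.exp_le_exp.mpr
          refine mul_le_mul_of_nonneg_left ?_ hlam
          have := hB c hc
          linarith
      _ ≤ _ := sum_le_sum_of_subset_of_nonneg (subset_univ _) fun c _ _ =>
          prod_nonneg fun i _ => (Real.exp_pos _).le
  rw [h1] at h4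
  have h5 := h4.trans (h2.trans (le_of_eq h3))
  rw [Real.exp_sub, mul_div_assoc', div_le_iff₀ (Real.exp_pos _)]
  exact h5

end Pool.Agent.Q329.LT
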