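import Pool.Agent.Q329.LT.Side

/-! Mixtures of satisfiable linear unique games (helper329). -/

set_option autoImplicit false
set_option linter.unusedSectionVars false
set_option linter.unusedVariables false

open Finset Pool.Agent.TH700.PA

namespace Pool.Agent.Q329.LT

/-- The labelling `L`, `M` satisfies the equation of the edge `e`. -/
def Solves {n q : ℕ} (x : Fin n × Fin n → ZMod q) (L M : Fin n → ZMod q) (e : Fin n × Fin n) :
    Prop :=
  M e.2 - L e.1 = x e

/-- All equations can be satisfied. -/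
def ValueOne {n q : ℕ} (x : Fin n × Fin n → ZMod q) : Prop :=
  ∃ L M : Fin n → ZMod q, ∀ e, Solves x L M e

/-- Every labelling satisfies at most the fraction `δ` of the equations. -/
def ValueLe {n q : ℕ} (δ : ℝ) (x : Fin n × Fin n → ZMod q) : Prop :=
  ∀ L M : Fin n → ZMod q, (Nat.card {e // Solves x L M e} : ℝ) ≤ δ * (n : ℝ) ^ 2

variable {n q t : ℕ}

/-- the labellings -/
abbrev Lab (n q : ℕ) : Type := Fin n ⊕ Fin n → ZMod q

/-- the satisfiable game of a labelling -/
def zz (l : Lab n q) (e : Fin n × Fin n) : ZMod q := l (Sum.inr e.2) - l (Sum.inl e.1)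

lemma zz_one (l : Lab n q) : ValueOne (zz l) :=
  ⟨fun u => l (Sum.inl u), fun v => l (Sum.inr v), fun _ => rfl⟩

/-- the differences, left first -/
def phiL (b : Fin t → Lab n q) (β : Lab n q) :
    (Fin t × Fin n → ZMod q) × (Fin t × Fin n → ZMod q) :=
  (fun i => b i.1 (Sum.inl i.2) - β (Sum.inl i.2), fun i => b i.1 (Sum.inr i.2) - β (Sum.inr i.2))

lemma phiL_inj (β : Lab n q) : Function.Injective fun b : Fin t → Lab n q => phiL b β := by
  intro b b' h
  funext j w
  have h1 := congrArg Prod.fst h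
  have h2 := congrArg Prod.snd h
  rcases w with u | v
  · have := congrFun h1 (j, u)
    simpa [phiL] using this
  · have := congrFun h2 (j, v)
    simpa [phiL] using this

open Classical in
/-- the satisfied edges in terms of the differences -/
lemma sat_iff (p : Fin n × Fin n → Fin t) (b : Fin t → Lab n q) (L M : Fin n → ZMod q)
    (e : Fin n × Fin n) : Solves (mixp p zz b) L M e ↔
      (phiL b (Sum.elim L M)).1 (p e, e.1) = (phiL b (Sum.elim L M)).2 (p e, e.2) := by
  unfold Solves mixp zz phiL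
  simp only [Sum.elim_inl, Sum.elim_inr]
  constructor
  · intro h
    have h2 : b (p e) (Sum.inr e.2) = M e.2 - L e.1 + b (p e) (Sum.inl e.1) := by rw [h]; ring
    rw [h2]; ring
  · intro h
    have h2 : b (p e) (Sum.inl e.1) = b (p e) (Sum.inr e.2) - M e.2 + L e.1 := by
      rw [← h]; ring
    rw [h2]; ring

open Classical in
/-- few mixtures have a large value on edges with light ends -/
lemma light_bound [NeZero q] (hq : 2 ≤ q) {η : ℝ} (hη : 0 < η) (hη1 : η ≤ 1) {h : ℕ} (hh : 1 ≤ h)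
    (c2 : 72 * (q : ℝ) * h ≤ η ^ 2 * n) (S : Finset (Fin n × Fin n))
    (f g : Fin n × Fin n → Fin t × Fin n)
    (hS : ∀ i, (S.filter fun e => g e = i).card ≤ h)
    (B : Finset ((Fin t × Fin n → ZMod q) × (Fin t × Fin n → ZMod q)))
    (hB : ∀ c ∈ B, (S.card : ℝ) / q + η * (n : ℝ) ^ 2 / 3 ≤
      ((S.filter fun e => c.1 (f e) = c.2 (g e)).card : ℝ)) :
    (B.card : ℝ) * Real.exp (4 * q * n) ≤ (q : ℝ) ^ (2 * n * t) := by
  have hhR : (1 : ℝ) ≤ h := by exact_mod_cast hh
  have hqR : (2 : ℝ) ≤ q := by exact_mod_cast hq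
  have h1 := one_side (κ := ZMod q) S f g (h : ℝ) (η / (3 * h)) (η * (n : ℝ) ^ 2 / 3)
    (fun i => by exact_mod_cast hS i) (by positivity) (by
      rw [div_mul_eq_mul_div, div_le_one (by positivity)]
      nlinarith) B (fun c hc => by
      rw [ZMod.card]
      exact hB c hc)
  rw [ZMod.card] at h1
  have hSn : (S.card : ℝ) ≤ (n : ℝ) ^ 2 := by
    have : S.card ≤ n * n := by
      have := card_le_univ S
      rwa [Fintype.card_prod, Fintype.card_fin] at this
    have h2 : ((S.card : ℕ) : ℝ) ≤ ((n * n : ℕ) : ℝ) := by exact_mod_cast this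
    rw [sq]
    push_cast at h2
    exact h2
  have hX : 4 * (q : ℝ) * n ≤ η / (3 * h) * (η * (n : ℝ) ^ 2 / 3) -
      (η / (3 * h)) ^ 2 * h * ((S.card : ℝ) / q) := by
    have e1 : (S.card : ℝ) / q ≤ (n : ℝ) ^ 2 / 2 := by
      refine (div_le_div_of_nonneg_right hSn (by positivity)).trans ?_
      exact div_le_div_of_nonneg_left (by positivity) (by norm_num) hqR
    have e2 : (η / (3 * h)) ^ 2 * h * ((S.card : ℝ) / q) ≤
        (η / (3 * h)) ^ 2 * h * ((n : ℝ) ^ 2 / 2) :=
      mul_le_mul_of_nonneg_left e1 (by positivity)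
    have e3 : η / (3 * h) * (η * (n : ℝ) ^ 2 / 3) - (η / (3 * h)) ^ 2 * h * ((n : ℝ) ^ 2 / 2) =
        (η ^ 2 * n) * n / (18 * h) := by
      field_simp
      ring
    have e4 : 4 * (q : ℝ) * n ≤ (η ^ 2 * n) * n / (18 * h) := by
      rw [le_div_iff₀ (by positivity)]
      calc 4 * (q : ℝ) * n * (18 * h) = (72 * (q : ℝ) * h) * n := by ring
        _ ≤ (η ^ 2 * n) * n := mul_le_mul_of_nonneg_right c2 (Nat.cast_nonneg _)
    linarith
  have h3 : (B.card : ℝ) * Real.exp (4 * q * n) ≤ (B.card : ℝ) *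
      Real.exp (η / (3 * h) * (η * (n : ℝ) ^ 2 / 3) -
      (η / (3 * h)) ^ 2 * h * ((S.card : ℝ) / q)) :=
    mul_le_mul_of_nonneg_left (Real.exp_le_exp.mpr hX) (Nat.cast_nonneg _)
  refine h3.trans (h1.trans (le_of_eq ?_))
  rw [Fintype.card_prod, Fintype.card_fin, Fintype.card_fin]
  congr 1
  ring

open Classical in
/-- Most mixtures have small value. -/
theorem few_bad [NeZero q] (hq : 2 ≤ q) {η : ℝ} (hη : 0 < η) (hη1 : η ≤ 1) {h θ : ℕ} (hn : 1 ≤ n)
    (hh : 1 ≤ h) (c2 : 72 * (q : ℝ) * h ≤ η ^ 2 * n)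
    (c3 : 3 * ((t : ℝ) * (2 * θ) ^ 2) ≤ η * (n : ℝ) ^ 2 * h ^ 2) (p : Fin n × Fin n → Fin t)
    (hp : ∀ j, (univ.filter (fun e => p e = j)).card ≤ 2 * θ) :
    ∃ B : Finset (Fin t → Lab n q), (∀ b, ¬ ValueLe (1 / q + η) (mixp p zz b) → b ∈ B) ∧
      B.card * 2 ^ n ≤ Fintype.card (Lab n q) ^ t := by
  have hhR : (1 : ℝ) ≤ h := by exact_mod_cast hh
  have hqR : (2 : ℝ) ≤ q := by exact_mod_cast hq
  obtain ⟨P1, hP1⟩ : ∃ P1 : Fin n × Fin n → Prop, P1 = fun e =>
    (univ.filter fun e' => p e' = p e ∧ e'.2 = e.2).card ≤ h := ⟨_, rfl⟩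
  obtain ⟨P2, hP2⟩ : ∃ P2 : Fin n × Fin n → Prop, P2 = fun e =>
    (univ.filter fun e' => p e' = p e ∧ e'.1 = e.1).card ≤ h := ⟨_, rfl⟩
  obtain ⟨E1, hE1⟩ : ∃ E1 : Finset (Fin n × Fin n), E1 = univ.filter P1 := ⟨_, rfl⟩
  obtain ⟨E2, hE2⟩ : ∃ E2 : Finset (Fin n × Fin n), E2 = univ.filter (fun e => ¬ P1 e ∧ P2 e) :=
    ⟨_, rfl⟩
  obtain ⟨E3, hE3⟩ : ∃ E3 : Finset (Fin n × Fin n), E3 = univ.filter (fun e => ¬ P1 e ∧ ¬ P2 e) :=
    ⟨_, rfl⟩
  have hP1' : ∀ e, P1 e ↔ (univ.filter fun e' => p e' = p e ∧ e'.2 = e.2).card ≤ h := by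
    intro e; rw [hP1]
  have hP2' : ∀ e, P2 e ↔ (univ.filter fun e' => p e' = p e ∧ e'.1 = e.1).card ≤ h := by
    intro e; rw [hP2]
  have m1 : ∀ e, e ∈ E1 ↔ P1 e := by intro e; rw [hE1, mem_filter]; simp
  have m2 : ∀ e, e ∈ E2 ↔ ¬ P1 e ∧ P2 e := by intro e; rw [hE2, mem_filter]; simp
  have m3 : ∀ e, e ∈ E3 ↔ ¬ P1 e ∧ ¬ P2 e := by intro e; rw [hE3, mem_filter]; simp
  -- the heavy part is small
  have h3 : (E3.card : ℝ) ≤ η * (n : ℝ) ^ 2 / 3 := by
    have e1 : E3.card * h ^ 2 ≤ t * (2 * θ) ^ 2 := by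
      have e2 := card_eq_sum_card_fiberwise (s := E3) (f := p) (t := univ) (fun _ _ => mem_univ _)
      rw [e2, sum_mul]
      calc ∑ j, (E3.filter fun e => p e = j).card * h ^ 2 ≤ ∑ _j : Fin t, (2 * θ) ^ 2 := by
            refine sum_le_sum fun j _ => ?_
            refine heavy_pairs (univ.filter fun e => p e = j) (hp j) _ ?_
            intro e he
            obtain ⟨he1, he2⟩ := mem_filter.mp he
            rw [m3, hP1', hP2', not_le, not_le] at he1
            obtain ⟨he3, he4⟩ := he1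
            rw [he2] at he3 he4
            rw [filter_filter, filter_filter]
            exact ⟨he4, he3⟩
        _ = _ := by rw [sum_const, card_univ, Fintype.card_fin, smul_eq_mul]
    have e3 : (E3.card : ℝ) * h ^ 2 ≤ t * (2 * θ) ^ 2 := by exact_mod_cast e1
    have hh2 : (0 : ℝ) < (h : ℝ) ^ 2 := by positivity
    refine le_of_mul_le_mul_right ?_ hh2
    calc (E3.card : ℝ) * h ^ 2 ≤ t * (2 * θ) ^ 2 := e3
      _ ≤ η * (n : ℝ) ^ 2 / 3 * h ^ 2 := by linarith
  -- bad differences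
  obtain ⟨B1, hB1⟩ : ∃ B1 : Finset ((Fin t × Fin n → ZMod q) × (Fin t × Fin n → ZMod q)),
    B1 = univ.filter (fun c => (E1.card : ℝ) / q + η * (n : ℝ) ^ 2 / 3 ≤
      ((E1.filter fun e => c.1 (p e, e.1) = c.2 (p e, e.2)).card : ℝ)) := ⟨_, rfl⟩
  obtain ⟨B2, hB2⟩ : ∃ B2 : Finset ((Fin t × Fin n → ZMod q) × (Fin t × Fin n → ZMod q)),
    B2 = univ.filter (fun c => (E2.card : ℝ) / q + η * (n : ℝ) ^ 2 / 3 ≤
      ((E2.filter fun e => c.1 (p e, e.2) = c.2 (p e, e.1)).card : ℝ)) := ⟨_, rfl⟩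
  have hB1c : (B1.card : ℝ) * Real.exp (4 * q * n) ≤ (q : ℝ) ^ (2 * n * t) := by
    refine light_bound hq hη hη1 hh c2 E1 (fun e => (p e, e.1)) (fun e => (p e, e.2)) ?_ B1
      (fun c hc => by
        rw [hB1] at hc
        exact (mem_filter.mp hc).2)
    intro i
    rcases (E1.filter fun e => (p e, e.2) = i).eq_empty_or_nonempty with he | ⟨e0, he0⟩
    · rw [he]
      exact Nat.zero_le _
    · obtain ⟨he1, he2⟩ := mem_filter.mp he0
      rw [m1, hP1'] at he1
      refine le_trans (card_le_card ?_) he1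
      intro e he
      have he3 := (mem_filter.mp he).2
      rw [← he2] at he3
      exact mem_filter.mpr ⟨mem_univ _, (Prod.mk.inj he3).1, (Prod.mk.inj he3).2⟩
  have hB2c : (B2.card : ℝ) * Real.exp (4 * q * n) ≤ (q : ℝ) ^ (2 * n * t) := by
    refine light_bound hq hη hη1 hh c2 E2 (fun e => (p e, e.2)) (fun e => (p e, e.1)) ?_ B2
      (fun c hc => by
        rw [hB2] at hc
        exact (mem_filter.mp hc).2)
    intro i
    rcases (E2.filter fun e => (p e, e.1) = i).eq_empty_or_nonempty with he | ⟨e0, he0⟩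
    · rw [he]
      exact Nat.zero_le _
    · obtain ⟨he1, he2⟩ := mem_filter.mp he0
      rw [m2, hP2'] at he1
      refine le_trans (card_le_card ?_) he1.2
      intro e he
      have he3 := (mem_filter.mp he).2
      rw [← he2] at he3
      exact mem_filter.mpr ⟨mem_univ _, (Prod.mk.inj he3).1, (Prod.mk.inj he3).2⟩
  refine ⟨univ.biUnion fun β : Lab n q =>
    (univ.filter fun b => phiL b β ∈ B1) ∪ (univ.filter fun b => (phiL b β).swap ∈ B2),
    fun b hb => ?_, ?_⟩
  · unfold ValueLe at hb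
    push Not at hb
    obtain ⟨L, M, hlt⟩ := hb
    rw [mem_biUnion]
    refine ⟨Sum.elim L M, mem_univ _, ?_⟩
    obtain ⟨c, hc⟩ : ∃ c, c = phiL b (Sum.elim L M) := ⟨_, rfl⟩
    rw [mem_union, mem_filter, mem_filter, ← hc, hB1, hB2, mem_filter, mem_filter]
    have h4 : Nat.card {e // Solves (mixp p zz b) L M e} =
        (univ.filter fun e => c.1 (p e, e.1) = c.2 (p e, e.2)).card := by
      rw [Nat.card_eq_fintype_card, Fintype.card_subtype]
      congr 1
      ext e
      rw [mem_filter, mem_filter, sat_iff, ← hc]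
    have h5 : (univ.filter fun e => c.1 (p e, e.1) = c.2 (p e, e.2)).card ≤
        (E1.filter fun e => c.1 (p e, e.1) = c.2 (p e, e.2)).card +
        (E2.filter fun e => c.1 (p e, e.1) = c.2 (p e, e.2)).card + E3.card := by
      refine le_trans (card_le_card fun e he => ?_) ((card_union_le
        ((E1.filter fun e => c.1 (p e, e.1) = c.2 (p e, e.2)) ∪
        (E2.filter fun e => c.1 (p e, e.1) = c.2 (p e, e.2))) E3).trans
        (Nat.add_le_add_right (card_union_le _ _) _))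
      have he1 := (mem_filter.mp he).2
      rw [mem_union, mem_union, mem_filter, mem_filter, m1, m2, m3]
      by_cases g1 : P1 e
      · exact Or.inl (Or.inl ⟨g1, he1⟩)
      · by_cases g2 : P2 e
        · exact Or.inl (Or.inr ⟨⟨g1, g2⟩, he1⟩)
        · exact Or.inr ⟨g1, g2⟩
    have h6 : (E1.card : ℝ) + E2.card ≤ (n : ℝ) ^ 2 := by
      have e1 : E1.card + E2.card ≤ n * n := by
        have e2 : (E1 ∪ E2).card = E1.card + E2.card := by
          refine card_union_of_disjoint ?_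
          rw [disjoint_left]
          intro e g1 g2
          exact ((m2 e).mp g2).1 ((m1 e).mp g1)
        rw [← e2]
        have := card_le_univ (E1 ∪ E2)
        rwa [Fintype.card_prod, Fintype.card_fin] at this
      have e3 : ((E1.card + E2.card : ℕ) : ℝ) ≤ ((n * n : ℕ) : ℝ) := by exact_mod_cast e1
      push_cast at e3
      rw [sq]
      exact e3
    have h7 : (E1.card : ℝ) / q + (E2.card : ℝ) / q ≤ 1 / q * (n : ℝ) ^ 2 := by
      rw [← add_div, one_div_mul_eq_div]
      exact div_le_div_of_nonneg_right h6 (by positivity)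
    rw [h4] at hlt
    have h8 : ((univ.filter fun e => c.1 (p e, e.1) = c.2 (p e, e.2)).card : ℝ) ≤
        ((E1.filter fun e => c.1 (p e, e.1) = c.2 (p e, e.2)).card : ℝ) +
        ((E2.filter fun e => c.1 (p e, e.1) = c.2 (p e, e.2)).card : ℝ) + E3.card := by
      exact_mod_cast h5
    by_contra hcon
    push Not at hcon
    obtain ⟨g1, g2⟩ := hcon
    have g1' := g1 (mem_univ _) (mem_univ _)
    have g2' := g2 (mem_univ _) (mem_univ _)
    have h9 : ((E2.filter fun e => c.swap.1 (p e, e.2) = c.swap.2 (p e, e.1)).card : ℝ) =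
        ((E2.filter fun e => c.1 (p e, e.1) = c.2 (p e, e.2)).card : ℝ) := by
      congr 2
      ext e
      simp only [mem_filter, Prod.fst_swap, Prod.snd_swap]
      constructor
      · rintro ⟨a, b⟩; exact ⟨a, b.symm⟩
      · rintro ⟨a, b⟩; exact ⟨a, b.symm⟩
    rw [h9] at g2'
    have h10 : (1 / (q : ℝ) + η) * (n : ℝ) ^ 2 = 1 / q * (n : ℝ) ^ 2 + η * (n : ℝ) ^ 2 := by ring
    rw [h10] at hlt
    linarith
  · have hc1 : ∀ β : Lab n q, (univ.filter fun b : Fin t → Lab n q => phiL b β ∈ B1).card ≤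
        B1.card := by
      intro β
      refine card_le_card_of_injOn (fun b => phiL b β) (fun b hb => ?_) ((phiL_inj β).injOn)
      exact (mem_filter.mp (mem_coe.mp hb)).2
    have hc2 : ∀ β : Lab n q,
        (univ.filter fun b : Fin t → Lab n q => (phiL b β).swap ∈ B2).card ≤ B2.card := by
      intro β
      refine card_le_card_of_injOn (fun b => (phiL b β).swap) (fun b hb => ?_)
        (fun b _ b' _ hbb => ?_)
      · exact (mem_filter.mp (mem_coe.mp hb)).2
      · exact phiL_inj β (Prod.swap_injective hbb)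
    have hcard : Fintype.card (Lab n q) = q ^ (2 * n) := by
      rw [Fintype.card_fun, Fintype.card_sum, Fintype.card_fin, ZMod.card, two_mul]
    obtain ⟨BB, hBB⟩ : ∃ BB : Finset (Fin t → Lab n q), BB = univ.biUnion fun β : Lab n q =>
      (univ.filter fun b => phiL b β ∈ B1) ∪ (univ.filter fun b => (phiL b β).swap ∈ B2) :=
      ⟨_, rfl⟩
    rw [← hBB]
    have h11 : BB.card ≤ q ^ (2 * n) * (B1.card + B2.card) := by
      rw [hBB]
      refine card_biUnion_le.trans ?_
      calc _ ≤ ∑ _β : Lab n q, (B1.card + B2.card) := by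
            refine sum_le_sum fun β _ => ?_
            exact (card_union_le _ _).trans (Nat.add_le_add (hc1 β) (hc2 β))
        _ = _ := by rw [sum_const, card_univ, hcard, smul_eq_mul]
    have h12 : (BB.card : ℝ) * Real.exp (4 * q * n) ≤ (q : ℝ) ^ (2 * n) * (2 * (q : ℝ) ^ (2 * n * t)) := by
      have e1 : (BB.card : ℝ) ≤ (q : ℝ) ^ (2 * n) * ((B1.card : ℝ) + B2.card) := by
        exact_mod_cast h11
      calc (BB.card : ℝ) * Real.exp (4 * q * n) ≤
          ((q : ℝ) ^ (2 * n) * ((B1.card : ℝ) + B2.card)) * Real.exp (4 * q * n) :=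
            mul_le_mul_of_nonneg_right e1 (Real.exp_pos _).le
        _ = (q : ℝ) ^ (2 * n) * ((B1.card : ℝ) * Real.exp (4 * q * n) +
            (B2.card : ℝ) * Real.exp (4 * q * n)) := by ring
        _ ≤ _ := by
            refine mul_le_mul_of_nonneg_left ?_ (by positivity)
            linarith
    have h13 : (q : ℝ) ^ (2 * n) * (2 * 2 ^ n) ≤ Real.exp (4 * q * n) := by
      have e1 : (q : ℝ) ≤ Real.exp q := by
        have := Real.add_one_le_exp (q : ℝ)
        linarith
      have e2 : Real.exp (4 * q * n) = Real.exp q ^ (4 * n) := by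
        rw [← Real.exp_nat_mul]
        congr 1
        push_cast
        ring
      rw [e2]
      calc (q : ℝ) ^ (2 * n) * (2 * 2 ^ n) ≤ (q : ℝ) ^ (2 * n) * (2 ^ n * 2 ^ n) := by
            refine mul_le_mul_of_nonneg_left ?_ (by positivity)
            refine mul_le_mul_of_nonneg_right ?_ (by positivity)
            calc (2 : ℝ) = 2 ^ 1 := by norm_num
              _ ≤ 2 ^ n := pow_le_pow_right₀ (by norm_num) hn
        _ ≤ (q : ℝ) ^ (2 * n) * ((q : ℝ) ^ n * (q : ℝ) ^ n) := by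
            refine mul_le_mul_of_nonneg_left ?_ (by positivity)
            have : (2 : ℝ) ^ n ≤ (q : ℝ) ^ n := pow_le_pow_left₀ (by norm_num) hqR n
            exact mul_le_mul this this (by positivity) (by positivity)
        _ = (q : ℝ) ^ (4 * n) := by ring
        _ ≤ _ := pow_le_pow_left₀ (by positivity) e1 _
    have h14 : (BB.card : ℝ) * 2 ^ n ≤ (q : ℝ) ^ (2 * n * t) := by
      have hpos : (0 : ℝ) < (q : ℝ) ^ (2 * n) * 2 := by positivity
      refine le_of_mul_le_mul_left ?_ hpos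
      calc (q : ℝ) ^ (2 * n) * 2 * ((BB.card : ℝ) * 2 ^ n) =
          (BB.card : ℝ) * ((q : ℝ) ^ (2 * n) * (2 * 2 ^ n)) := by ring
        _ ≤ (BB.card : ℝ) * Real.exp (4 * q * n) := mul_le_mul_of_nonneg_left h13 (Nat.cast_nonneg _)
        _ ≤ (q : ℝ) ^ (2 * n) * (2 * (q : ℝ) ^ (2 * n * t)) := h12
        _ = _ := by ring
    rw [hcard, ← pow_mul]
    exact_mod_cast h14

end Pool.Agent.Q329.LT
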