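import Pool.Agent.Q329.LT.Mgf
import Pool.Agent.TH700.PA.Density
import Pool.Agent.TH700.PA.Count

/-! Coincidences of two random assignments (helper329). -/

set_option autoImplicit false
set_option linter.unusedSectionVars false
set_option linter.unusedVariables false

open Finset

namespace Pool.Agent.Q329.LT

lemma one_side {ι' ι E κ : Type} [Fintype ι'] [DecidableEq ι'] [Fintype ι] [DecidableEq ι]
    [Fintype κ] [Nonempty κ] [DecidableEq κ] [DecidableEq E] (S : Finset E) (f : E → ι') (g : E → ι)
    (h lam τ : ℝ) (hS : ∀ i, ((S.filter fun e => g e = i).card : ℝ) ≤ h)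
    (hlam : 0 ≤ lam) (hlh : lam * h ≤ 1) (B : Finset ((ι' → κ) × (ι → κ)))
    (hB : ∀ c ∈ B, (S.card : ℝ) / Fintype.card κ + τ ≤
      ((S.filter fun e => c.1 (f e) = c.2 (g e)).card : ℝ)) :
    (B.card : ℝ) *
      Real.exp (lam * τ - lam ^ 2 * h * ((S.card : ℝ) / Fintype.card κ)) ≤
      (Fintype.card κ : ℝ) ^ (Fintype.card ι' + Fintype.card ι) := by
  classical
  have hfix : ∀ a : ι' → κ, (((B.filter fun c => c.1 = a).card : ℕ) : ℝ) *
      Real.exp (lam * τ - lam ^ 2 * h * ((S.card : ℝ) / Fintype.card κ)) ≤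
      (Fintype.card κ : ℝ) ^ Fintype.card ι := by
    intro a
    obtain ⟨Y, hY⟩ : ∃ Y : ι → κ → ℝ, Y = fun i k =>
      (((S.filter fun e => g e = i).filter fun e => a (f e) = k).card : ℝ) := ⟨_, rfl⟩
    have hYs : ∀ i, ∑ k, Y i k = ((S.filter fun e => g e = i).card : ℝ) := by
      intro i
      rw [hY]
      have := card_eq_sum_card_fiberwise (s := S.filter fun e => g e = i)
        (f := fun e => a (f e)) (t := univ) (fun _ _ => mem_univ _)
      rw [this]
      push_cast
      rfl
    have hYss : ∑ i, ∑ k, Y i k = (S.card : ℝ) := by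
      rw [sum_congr rfl fun i _ => hYs i]
      have := card_eq_sum_card_fiberwise (s := S) (f := g) (t := univ) (fun _ _ => mem_univ _)
      rw [this]
      push_cast
      rfl
    have h1 := mgf Y h lam τ (fun i c => by rw [hY]; positivity) (fun i c => by
      refine le_trans ?_ (hS i)
      rw [hY]
      show ((((S.filter fun e => g e = i).filter fun e => a (f e) = c).card : ℕ) : ℝ) ≤ _
      exact_mod_cast card_filter_le _ _) hlam hlh
      ((B.filter fun c => c.1 = a).image Prod.snd) (fun c hc => by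
        obtain ⟨c', hc', rfl⟩ := mem_image.mp hc
        obtain ⟨hc1, hc2⟩ := mem_filter.mp hc'
        rw [hYss]
        refine (hB c' hc1).trans (le_of_eq ?_)
        have h3 := card_eq_sum_card_fiberwise (s := S.filter fun e => c'.1 (f e) = c'.2 (g e))
          (f := g) (t := univ) (fun _ _ => mem_univ _)
        rw [h3, hY]
        push_cast
        refine sum_congr rfl fun i _ => ?_
        congr 2
        ext e
        simp only [mem_filter]
        rw [hc2]
        constructor
        · rintro ⟨⟨h4, h5⟩, h6⟩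
          exact ⟨⟨h4, h6⟩, by rw [h5, h6]⟩
        · rintro ⟨⟨h4, h6⟩, h5⟩
          exact ⟨⟨h4, by rw [h5, h6]⟩, h6⟩)
    rw [hYss] at h1
    have h2 : ((B.filter fun c => c.1 = a).image Prod.snd).card =
        (B.filter fun c => c.1 = a).card := by
      refine card_image_of_injOn ?_
      intro c hc c' hc' hcc
      have e1 := (mem_filter.mp (mem_coe.mp hc)).2
      have e2 := (mem_filter.mp (mem_coe.mp hc')).2
      exact Prod.ext (e1.trans e2.symm) hcc
    rw [h2] at h1
    exact h1
  have h3 : B.card = ∑ a : ι' → κ, (B.filter fun c => c.1 = a).card :=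
    card_eq_sum_card_fiberwise (f := Prod.fst) (t := univ) (fun _ _ => mem_univ _)
  rw [h3]
  push_cast
  rw [sum_mul]
  refine (sum_le_sum fun a _ => hfix a).trans (le_of_eq ?_)
  rw [sum_const, card_univ, nsmul_eq_mul, Fintype.card_fun, pow_add]
  push_cast
  ring

/-- the heavy pairs of a part -/
lemma heavy_pairs {n h m : ℕ} (E : Finset (Fin n × Fin n)) (hE : E.card ≤ m)
    (S : Finset (Fin n × Fin n))
    (hS : ∀ e ∈ S, h < (E.filter fun e' => e'.1 = e.1).card ∧
      h < (E.filter fun e' => e'.2 = e.2).card) : S.card * h ^ 2 ≤ m ^ 2 := by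
  classical
  obtain ⟨L, hL⟩ : ∃ L : Finset (Fin n), L = univ.filter fun u =>
    h < (E.filter fun e' => e'.1 = u).card := ⟨_, rfl⟩
  obtain ⟨R, hR⟩ : ∃ R : Finset (Fin n), R = univ.filter fun v =>
    h < (E.filter fun e' => e'.2 = v).card := ⟨_, rfl⟩
  have h1 : S ⊆ L ×ˢ R := by
    intro e he
    rw [mem_product, hL, hR]
    exact ⟨mem_filter.mpr ⟨mem_univ _, (hS e he).1⟩, mem_filter.mpr ⟨mem_univ _, (hS e he).2⟩⟩
  have hLh : L.card * h ≤ m := by
    refine le_trans ?_ hE
    have h2 := card_eq_sum_card_fiberwise (s := E) (f := Prod.fst) (t := univ)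
      (fun _ _ => mem_univ _)
    rw [h2]
    calc L.card * h = ∑ _u ∈ L, h := by rw [sum_const, smul_eq_mul]
      _ ≤ ∑ u ∈ L, (E.filter fun e' => e'.1 = u).card := by
          refine sum_le_sum fun u hu => ?_
          rw [hL] at hu
          exact (mem_filter.mp hu).2.le
      _ ≤ _ := sum_le_sum_of_subset (subset_univ L)
  have hRh : R.card * h ≤ m := by
    refine le_trans ?_ hE
    have h2 := card_eq_sum_card_fiberwise (s := E) (f := Prod.snd) (t := univ)
      (fun _ _ => mem_univ _)
    rw [h2]
    calc R.card * h = ∑ _u ∈ R, h := by rw [sum_const, smul_eq_mul]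
      _ ≤ ∑ u ∈ R, (E.filter fun e' => e'.2 = u).card := by
          refine sum_le_sum fun u hu => ?_
          rw [hR] at hu
          exact (mem_filter.mp hu).2.le
      _ ≤ _ := sum_le_sum_of_subset (subset_univ R)
  calc S.card * h ^ 2 ≤ (L.card * R.card) * h ^ 2 :=
        Nat.mul_le_mul_right _ ((card_le_card h1).trans (le_of_eq (card_product _ _)))
    _ = (L.card * h) * (R.card * h) := by ring
    _ ≤ m * m := Nat.mul_le_mul hLh hRh
    _ = _ := by ring

end Pool.Agent.Q329.LT
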